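import Pool.Agent.H2.NL.Basic

/-!
# (CSY): the contraction of a symmetric tensor is symmetric
-/

set_option autoImplicit false
set_option linter.unusedSectionVars false

open Matrix Pool.Agent.H2.NL Pool.Agent.H64.CC

namespace Pool.Agent.H32.NL.CSY

private theorem symm_app {K : Type} [Field K] {I : Type} [Fintype I] (o : I → Bool) (n : ℕ)
    (t : List I → K) (h : Symm o n t) (α : List I) (a b : I) (β : List I)
    (hl : (α ++ a :: b :: β).length = n) :
    t (α ++ a :: b :: β) = ks K (o a) (o b) * t (α ++ b :: a :: β) := by
  have h1 := h α.length (by simp at hl; omega) (α ++ a :: b :: β) hl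
  rw [sw_append] at h1
  exact h1.symm

theorem pf_CSY : T_CSY := by
  intro K _ I _ _ F n t ht
  constructor
  · intro j hj w hw
    obtain ⟨α, a, b, β, rfl, rfl⟩ := exists_split j w (by omega)
    rw [sw_append]
    have e : ∀ v : List I, con F.η 0 t v = ∑ x, F.c x * t (x :: F.st x :: v) := fun v =>
      Form.con_append F [] t v
    rw [e, e, Finset.mul_sum]
    refine Finset.sum_congr rfl fun x _ => ?_
    have h := symm_app F.o (n + 2) t ht (x :: F.st x :: α) a b β (by simp at hw ⊢; omega)
    simp only [List.cons_append] at h
    rw [h]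
    ring
  · intro j hj w hw
    obtain ⟨α, a, b, β, rfl, rfl⟩ := exists_split j w (by omega)
    rw [sw_append]
    unfold con'
    rw [Finset.mul_sum]
    refine Finset.sum_congr rfl fun x _ => ?_
    have h := symm_app F.o (n + 2) t ht (F.st x :: x :: α) a b β (by simp at hw ⊢; omega)
    simp only [List.cons_append] at h
    rw [h]
    ring

end Pool.Agent.H32.NL.CSY
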