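import Pool.Agent.H2.NL.Basic

/-!
# (POS): the contractions of adjacent places of a symmetric tensor
-/

set_option autoImplicit false
set_option linter.unusedSectionVars false

open Matrix Pool.Agent.H2.NL Pool.Agent.H64.CC

namespace Pool.Agent.H32.NL.POS

private theorem symm_app {K : Type} [Field K] {I : Type} [Fintype I] (o : I → Bool) (n : ℕ)
    (t : List I → K) (h : Symm o n t) (α : List I) (a b : I) (β : List I)
    (hl : (α ++ a :: b :: β).length = n) :
    t (α ++ a :: b :: β) = ks K (o a) (o b) * t (α ++ b :: a :: β) := by
  have h1 := h α.length (by simp at hl; omega) (α ++ a :: b :: β) hl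
  rw [sw_append] at h1
  exact h1.symm

theorem pf_POS : T_POS := by
  intro K _ I _ _ F n t ht j
  induction j with
  | zero => intro _ w _; rfl
  | succ j ih =>
    intro hj w hw
    obtain ⟨α, β', hα, rfl⟩ := exists_split' j w (by omega)
    match β', hw with
    | [], hw =>
      exfalso
      simp at hw
      omega
    | x :: β, hw =>
      rw [← ih (by omega) (α ++ x :: β) hw]
      have e1 : con F.η (j + 1) t (α ++ x :: β) =
          ∑ a, F.c a * t (α ++ x :: a :: F.st a :: β) := by
        have h := Form.con_append F (α ++ [x]) t β
        have e : (α ++ [x]).length = j + 1 := by simp [hα]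
        rw [e] at h
        simpa using h
      have e2 : con F.η j t (α ++ x :: β) =
          ∑ a, F.c a * t (α ++ a :: F.st a :: x :: β) := by
        have h := Form.con_append F α t (x :: β)
        rw [hα] at h
        exact h
      rw [e1, e2]
      refine Finset.sum_congr rfl fun a _ => ?_
      have hl : α.length + (β.length + 1) = n := by simpa using hw
      have h1 := symm_app F.o (n + 2) t ht α x a (F.st a :: β) (by simp; omega)
      have h2 := symm_app F.o (n + 2) t ht (α ++ [a]) x (F.st a) β (by simp; omega)
      simp only [List.append_assoc, List.singleton_append] at h2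
      rw [h1, h2, F.o_st, ← mul_assoc (ks K (F.o x) (F.o a)), ks_mul_self, one_mul]

end Pool.Agent.H32.NL.POS
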